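import Pool.Agent.H30.BV.Targets

/-!
# MP_04ff0f_nt (second theorem): the principal character near the line 1
-/

set_option autoImplicit false

open Finset Real ArithmeticFunction
open scoped Nat

namespace Pool.Agent.H33.BV

open Pool.Agent.H30.BV

theorem cv_one (q n : ℕ) : cv (1 : DirichletCharacter ℂ q) n = if q.Coprime n then 1 else 0 := by
  unfold cv
  split_ifs with h
  · exact MulChar.one_apply ((ZMod.isUnit_iff_coprime n q).2 h.symm)
  · exact MulChar.map_nonunit _ fun h2 => h ((ZMod.isUnit_iff_coprime n q).1 h2).symm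

/-- sum over a period -/
theorem sum_period (q n : ℕ) : ∑ k ∈ Ico n (n + q), cv (1 : DirichletCharacter ℂ q) k =
    (φ q : ℂ) := by
  rw [sum_congr rfl fun k _ => cv_one q k, ← Finset.sum_filter, sum_const, nsmul_eq_mul, mul_one,
    Nat.filter_coprime_Ico_eq_totient]

/-- PR. The principal character. -/
theorem pr (hPB : T_PB) (hZB : T_ZB) : T_PR := by
  obtain ⟨C1, hC1, hP⟩ := hPB 0
  obtain ⟨C2, hC2, hZ⟩ := hZB
  refine ⟨C1 + C2, by positivity, fun q s hq hs hs3 => ?_⟩
  have hq1 : (1 : ℝ) ≤ q := by exact_mod_cast hq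
  have hq0 : (q : ℂ) ≠ 0 := by
    exact_mod_cast (by omega : q ≠ 0)
  set m : ℝ := (φ q : ℝ) / q with hm
  have hm0 : 0 ≤ m := by positivity
  have hm1 : m ≤ 1 := by
    rw [hm, div_le_one (by linarith)]
    exact_mod_cast Nat.totient_le q
  set f : ℕ → ℂ := fun n => cv (1 : DirichletCharacter ℂ q) n - m with hf
  have hf1 : ∀ n, ‖f n‖ ≤ 1 := by
    intro n
    simp only [hf]
    rw [cv_one]
    split_ifs
    · rw [show (1 : ℂ) - (m : ℂ) = ((1 - m : ℝ) : ℂ) by push_cast; ring, Complex.norm_real,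
        Real.norm_eq_abs, abs_le]
      constructor <;> linarith
    · rw [zero_sub, norm_neg, Complex.norm_real, Real.norm_eq_abs, abs_le]
      constructor <;> linarith
  have hper : ∀ n, ∑ k ∈ Ico n (n + q), f k = 0 := by
    intro n
    simp only [hf]
    rw [sum_sub_distrib, sum_period, sum_const, Nat.card_Ico, nsmul_eq_mul, hm]
    rw [Nat.add_sub_cancel_left]
    push_cast
    field_simp
    simp
  have hpart : ∀ M, ‖∑ n ∈ range M, f n‖ ≤ q := by
    intro M
    induction M using Nat.strong_induction_on with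
    | _ M ih =>
      rcases le_or_gt M q with h | h
      · calc ‖∑ n ∈ range M, f n‖ ≤ ∑ n ∈ range M, ‖f n‖ := norm_sum_le _ _
          _ ≤ ∑ n ∈ range M, 1 := sum_le_sum fun n _ => hf1 n
          _ = M := by simp
          _ ≤ q := by exact_mod_cast h
      · obtain ⟨N, rfl⟩ : ∃ N, M = N + q := ⟨M - q, by omega⟩
        have e : ∑ n ∈ range (N + q), f n = ∑ n ∈ range N, f n := by
          rw [range_eq_Ico, ← sum_Ico_consecutive f (Nat.zero_le N) (Nat.le_add_right N q),
            hper, add_zero, range_eq_Ico]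
        rw [e]
        exact ih N (by omega)
  have hs0 : DS (cv (1 : DirichletCharacter ℂ q)) 0 s = DS f 0 s + m * DS (fun _ => 1) 0 s := by
    have g1 : LSeriesSummable (fun n => f n * ((Real.log n ^ 0 : ℝ) : ℂ)) s :=
      LSeriesSummable_of_bounded_of_one_lt_re (m := 1) (fun n _ => by simpa using hf1 n) hs
    have g2 : LSeriesSummable (fun n => (1 : ℂ) * ((Real.log n ^ 0 : ℝ) : ℂ)) s :=
      LSeriesSummable_of_bounded_of_one_lt_re (m := 1) (fun n _ => by simp) hs
    unfold DS
    rw [← LSeries_smul, ← LSeries_add g1 (g2.smul _)]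
    refine LSeries_congr (fun {n} _ => ?_) s
    simp [hf]
  have h1 := hP f q s hq1 hf1 hpart hs hs3
  have h2 := hZ s hs hs3
  have h3 : Real.log (|s.im| + 3) ≤ Real.log (q * (|s.im| + 3)) := by
    have := abs_nonneg s.im
    refine Real.log_le_log (by linarith) ?_
    nlinarith
  have h4 : 0 ≤ Real.log (|s.im| + 3) := Real.log_nonneg (by
    have := abs_nonneg s.im
    linarith)
  have h5 : 0 ≤ 1 / ‖s - 1‖ := by positivity
  rw [hs0]
  calc ‖DS f 0 s + m * DS (fun _ => 1) 0 s‖ ≤ ‖DS f 0 s‖ + ‖(m : ℂ) * DS (fun _ => 1) 0 s‖ :=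
        norm_add_le _ _
    _ = ‖DS f 0 s‖ + m * ‖DS (fun _ => 1) 0 s‖ := by
        rw [norm_mul, Complex.norm_real, Real.norm_of_nonneg hm0]
    _ ≤ C1 * Real.log (q * (|s.im| + 3)) + 1 * (1 / ‖s - 1‖ + C2 * Real.log (|s.im| + 3)) := by
        refine add_le_add ?_ ?_
        · simpa using h1
        · exact mul_le_mul hm1 h2 (norm_nonneg _) zero_le_one
    _ ≤ 1 / ‖s - 1‖ + (C1 + C2) * Real.log (q * (|s.im| + 3)) := by
        nlinarith [mul_le_mul_of_nonneg_left h3 hC2.le]

end Pool.Agent.H33.BV
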